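import Mathlib

/-! Roots of unity near `1` and continuity of roots over `ℚ_ℓ`. -/

set_option autoImplicit false

namespace Pool.Agent.Q119.OI

open Polynomial

section
variable {L : Type} [NormedField L] [IsUltrametricDist L]

theorem add_le {x y : L} {C : ℝ} (hx : ‖x‖ ≤ C) (hy : ‖y‖ ≤ C) : ‖x + y‖ ≤ C :=
  (IsUltrametricDist.norm_add_le_max x y).trans (max_le hx hy)

theorem add_lt {x y : L} {C : ℝ} (hx : ‖x‖ < C) (hy : ‖y‖ < C) : ‖x + y‖ < C :=
  (IsUltrametricDist.norm_add_le_max x y).trans_lt (max_lt hx hy)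

theorem sub_lt {x y : L} {C : ℝ} (hx : ‖x‖ < C) (hy : ‖y‖ < C) : ‖x - y‖ < C := by
  rw [sub_eq_add_neg]
  exact add_lt hx (by rwa [norm_neg])

theorem sub_le {x y : L} {C : ℝ} (hx : ‖x‖ ≤ C) (hy : ‖y‖ ≤ C) : ‖x - y‖ ≤ C := by
  rw [sub_eq_add_neg]
  exact add_le hx (by rwa [norm_neg])

/-- The expansion of a power of `1 + u`. -/
theorem pow_expand (u : L) (hu : ‖u‖ ≤ 1) (n : ℕ) : ∃ w : L, ‖w‖ ≤ 1 ∧
    (1 + u) ^ n = 1 + (n : L) * u + (n.choose 2 : ℕ) * u ^ 2 + u ^ 3 * w := by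
  induction n with
  | zero => exact ⟨0, by simp, by simp⟩
  | succ n ih =>
    obtain ⟨w, hw, e⟩ := ih
    refine ⟨(n.choose 2 : ℕ) + w + u * w, ?_, ?_⟩
    · refine add_le (add_le (IsUltrametricDist.norm_natCast_le_one L _) hw) ?_
      rw [norm_mul]
      exact mul_le_one₀ hu (norm_nonneg _) hw
    · rw [pow_succ, e]
      have : (n + 1).choose 2 = n.choose 2 + n := by
        rw [Nat.choose_succ_succ' n 1, Nat.choose_one_right, add_comm]
      rw [this]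
      push_cast
      ring

/-- A root near the roots of a product of linear factors. -/
theorem exists_close {ι : Type} [Fintype ι] [Nonempty ι] (e : ι → L) (M : ℝ) (hM : 1 ≤ M)
    (he : ∀ i, ‖e i‖ ≤ M) (η : ℝ) (hη : 0 < η) (hη1 : η ≤ 1) (r : L) (B : ℝ)
    (hB : B ≤ (η / M) ^ Fintype.card ι)
    (hr : ‖∏ i, (r - e i)‖ ≤ B * (max 1 ‖r‖) ^ (Fintype.card ι - 1)) :
    ‖r‖ ≤ M ∧ ∃ i, ‖r - e i‖ ≤ η := by
  have hcard : 0 < Fintype.card ι := Fintype.card_pos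
  have hM0 : 0 < M := by linarith
  have hB1 : (η / M) ^ Fintype.card ι ≤ 1 := by
    apply pow_le_one₀ (by positivity)
    rw [div_le_one hM0]
    linarith
  have h1 : ‖r‖ ≤ M := by
    by_contra hcon
    push Not at hcon
    have h2 : ∀ i, ‖r - e i‖ = ‖r‖ := by
      intro i
      have h3 : ‖e i‖ < ‖r‖ := (he i).trans_lt hcon
      rw [sub_eq_add_neg, IsUltrametricDist.norm_add_eq_max_of_norm_ne_norm
        (by rw [norm_neg]; exact h3.ne'), norm_neg, max_eq_left h3.le]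
    rw [norm_prod, Finset.prod_congr rfl (fun i _ => h2 i), Finset.prod_const, Finset.card_univ,
      max_eq_right (by linarith)] at hr
    have h4 : 1 < ‖r‖ := by linarith
    have h5 : B * ‖r‖ ^ (Fintype.card ι - 1) < ‖r‖ ^ Fintype.card ι := by
      calc B * ‖r‖ ^ (Fintype.card ι - 1) ≤ 1 * ‖r‖ ^ (Fintype.card ι - 1) := by
            gcongr
            exact hB.trans hB1
        _ < ‖r‖ ^ Fintype.card ι := by
            rw [one_mul]
            exact pow_lt_pow_right₀ h4 (by omega)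
    linarith
  refine ⟨h1, ?_⟩
  by_contra hcon
  push Not at hcon
  have h2 : η ^ Fintype.card ι < ∏ i, ‖r - e i‖ := by
    have : ∏ _i : ι, η < ∏ i, ‖r - e i‖ :=
      Finset.prod_lt_prod_of_nonempty (fun _ _ => hη) (fun i _ => hcon i) Finset.univ_nonempty
    simpa using this
  rw [← norm_prod] at h2
  have h3 : B * (max 1 ‖r‖) ^ (Fintype.card ι - 1) ≤ η ^ Fintype.card ι := by
    calc B * (max 1 ‖r‖) ^ (Fintype.card ι - 1)
        ≤ (η / M) ^ Fintype.card ι * M ^ (Fintype.card ι - 1) := by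
          have h5 : max 1 ‖r‖ ≤ M := max_le hM h1
          gcongr
      _ ≤ (η / M) ^ Fintype.card ι * M ^ Fintype.card ι := by
          have : M ^ (Fintype.card ι - 1) ≤ M ^ Fintype.card ι :=
            pow_le_pow_right₀ hM (by omega)
          gcongr
      _ = η ^ Fintype.card ι := by
          rw [← mul_pow, div_mul_cancel₀ _ hM0.ne']
  linarith

end

section
variable {ℓ : ℕ} [hℓ : Fact ℓ.Prime]

/-- The value of a polynomial with small coefficients. -/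
theorem norm_aeval_le (P : ℚ_[ℓ][X]) (B : ℝ) (hB : 0 ≤ B) (h : ∀ j, ‖P.coeff j‖ ≤ B) (n : ℕ)
    (hn : P.natDegree ≤ n) (r : AlgebraicClosure ℚ_[ℓ]) : ‖aeval r P‖ ≤ B * (max 1 ‖r‖) ^ n := by
  rw [aeval_eq_sum_range]
  apply IsUltrametricDist.norm_sum_le_of_forall_le_of_nonneg (by positivity)
  intro i hi
  rw [norm_smul, norm_pow]
  have h1 : ‖r‖ ^ i ≤ (max 1 ‖r‖) ^ n := by
    calc ‖r‖ ^ i ≤ (max 1 ‖r‖) ^ i := by
          gcongr
          exact le_max_right _ _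
      _ ≤ (max 1 ‖r‖) ^ n :=
          pow_le_pow_right₀ (le_max_left _ _) (by rw [Finset.mem_range] at hi; omega)
  exact mul_le_mul (h i) h1 (by positivity) hB

theorem norm_nat (n : ℕ) : ‖(n : AlgebraicClosure ℚ_[ℓ])‖ = ‖(n : ℚ_[ℓ])‖ := by
  rw [← map_natCast (algebraMap ℚ_[ℓ] (AlgebraicClosure ℚ_[ℓ])), PadicAlgCl.norm_extends]

/-- Roots of unity near `1` are trivial. -/
theorem unit_near (h2 : ℓ ≠ 2) : ∀ n : ℕ, 0 < n → ∀ u : AlgebraicClosure ℚ_[ℓ],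
    ‖u‖ ≤ (ℓ : ℝ)⁻¹ → u ≠ 0 → (1 + u) ^ n ≠ 1 := by
  have hp := hℓ.out
  have hp3 : 3 ≤ ℓ := by
    have := hp.two_le
    omega
  have hl0 : (0 : ℝ) < ℓ := by exact_mod_cast hp.pos
  have hl1 : (ℓ : ℝ)⁻¹ < 1 := inv_lt_one_of_one_lt₀ (by exact_mod_cast hp.one_lt)
  intro n
  induction n using Nat.strong_induction_on with
  | _ n ih =>
    intro hn u hu hu0 hone
    have hun : 0 < ‖u‖ := norm_pos_iff.2 hu0
    have hu1 : ‖u‖ < 1 := hu.trans_lt hl1
    have hsq : ‖u‖ ^ 2 < ‖u‖ := by nlinarith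
    by_cases hd : ℓ ∣ n
    · obtain ⟨m, rfl⟩ := hd
      have hm : 0 < m := Nat.pos_of_mul_pos_left hn |> fun _ => by
        rcases Nat.eq_zero_or_pos m with h | h
        · simp [h] at hn
        · exact h
      obtain ⟨w, hw, e⟩ := pow_expand u hu1.le ℓ
      -- the norm of `(1 + u) ^ ℓ - 1`
      have hlu : ‖(ℓ : AlgebraicClosure ℚ_[ℓ]) * u‖ = (ℓ : ℝ)⁻¹ * ‖u‖ := by
        rw [norm_mul, norm_nat, Padic.norm_p]
      have hch : ‖((ℓ.choose 2 : ℕ) : AlgebraicClosure ℚ_[ℓ]) * u ^ 2‖ < (ℓ : ℝ)⁻¹ * ‖u‖ := by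
        have hdv : ℓ ∣ ℓ.choose 2 := hp.dvd_choose_self (by norm_num) (by omega)
        obtain ⟨t, ht⟩ := hdv
        rw [ht, norm_mul, norm_pow, Nat.cast_mul, norm_mul, norm_nat, Padic.norm_p]
        have h5 : ‖(t : AlgebraicClosure ℚ_[ℓ])‖ ≤ 1 := IsUltrametricDist.norm_natCast_le_one _ _
        calc (ℓ : ℝ)⁻¹ * ‖(t : AlgebraicClosure ℚ_[ℓ])‖ * ‖u‖ ^ 2
            ≤ (ℓ : ℝ)⁻¹ * 1 * ‖u‖ ^ 2 := by gcongr
          _ < (ℓ : ℝ)⁻¹ * ‖u‖ := by
              rw [mul_one]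
              exact mul_lt_mul_of_pos_left hsq (by positivity)
      have hcu : ‖u ^ 3 * w‖ < (ℓ : ℝ)⁻¹ * ‖u‖ := by
        rw [norm_mul, norm_pow]
        calc ‖u‖ ^ 3 * ‖w‖ ≤ ‖u‖ ^ 3 * 1 := by gcongr
          _ = ‖u‖ ^ 2 * ‖u‖ := by ring
          _ < (ℓ : ℝ)⁻¹ * ‖u‖ := by
              apply mul_lt_mul_of_pos_right _ hun
              exact hsq.trans_le hu
      set u' : AlgebraicClosure ℚ_[ℓ] := (ℓ : AlgebraicClosure ℚ_[ℓ]) * u +
        ((ℓ.choose 2 : ℕ) * u ^ 2 + u ^ 3 * w) with hu'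
      have e' : (1 + u) ^ ℓ = 1 + u' := by rw [e, hu']; ring
      have hn' : ‖u'‖ = (ℓ : ℝ)⁻¹ * ‖u‖ := by
        have h6 : ‖((ℓ.choose 2 : ℕ) : AlgebraicClosure ℚ_[ℓ]) * u ^ 2 + u ^ 3 * w‖ <
            ‖(ℓ : AlgebraicClosure ℚ_[ℓ]) * u‖ := by
          rw [hlu]
          exact add_lt hch hcu
        rw [hu', IsUltrametricDist.norm_add_eq_max_of_norm_ne_norm h6.ne', max_eq_left h6.le, hlu]
      refine ih m ?_ hm u' ?_ ?_ ?_
      · have := hp.two_le
        nlinarith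
      · rw [hn']
        have := mul_le_mul_of_nonneg_left hu1.le (inv_nonneg.2 hl0.le)
        linarith
      · intro h0
        rw [h0, norm_zero] at hn'
        have : 0 < (ℓ : ℝ)⁻¹ * ‖u‖ := by positivity
        linarith
      · rw [← e', ← pow_mul, hone]
    · obtain ⟨w, hw, e⟩ := pow_expand u hu1.le n
      have h3 : ‖(n : AlgebraicClosure ℚ_[ℓ]) * u‖ = ‖u‖ := by
        rw [norm_mul, norm_nat, Padic.norm_natCast_eq_one_iff.2 ((Nat.Prime.coprime_iff_not_dvd hp).2 hd),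
          one_mul]
      have h4 : ‖((n.choose 2 : ℕ) : AlgebraicClosure ℚ_[ℓ]) * u ^ 2 + u ^ 3 * w‖ < ‖u‖ := by
        apply add_lt
        · rw [norm_mul, norm_pow]
          calc ‖((n.choose 2 : ℕ) : AlgebraicClosure ℚ_[ℓ])‖ * ‖u‖ ^ 2 ≤ 1 * ‖u‖ ^ 2 := by
                gcongr
                exact IsUltrametricDist.norm_natCast_le_one _ _
            _ < ‖u‖ := by rw [one_mul]; exact hsq
        · rw [norm_mul, norm_pow]
          calc ‖u‖ ^ 3 * ‖w‖ ≤ ‖u‖ ^ 3 * 1 := by gcongr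
            _ = ‖u‖ ^ 2 * ‖u‖ := by ring
            _ ≤ ‖u‖ ^ 2 * 1 := by gcongr
            _ < ‖u‖ := by rw [mul_one]; exact hsq
      have h5 : (n : AlgebraicClosure ℚ_[ℓ]) * u +
          ((n.choose 2 : ℕ) * u ^ 2 + u ^ 3 * w) = 0 := by
        rw [e] at hone
        linear_combination hone
      have h6 := congrArg norm h5
      rw [IsUltrametricDist.norm_add_eq_max_of_norm_ne_norm (by rw [h3]; exact h4.ne'), norm_zero,
        h3, max_eq_left h4.le] at h6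
      exact hun.ne' h6

end

end Pool.Agent.Q119.OI
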