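import Pool.Agent.Y142.ZI.Stm2
import Pool.Agent.Y142.ZI.Resc
import Pool.Agent.Q119.OI.Root

/-! Job OI-TYPX: the local type generic. -/

set_option autoImplicit false

namespace Pool.Agent.Q119.OI.TYPX

open Polynomial Pool.Agent.Y142.ZI

/-- No additive relation between elements with different norms up to sign. -/
theorem sumfree {L : Type} [NormedField L] [IsUltrametricDist L] (h2 : ‖(2 : L)‖ = 1)
    (h3 : (3 : L) ≠ 0) {x y z : L} (hx : x ≠ 0) (hy : y ≠ 0) (hz : z ≠ 0)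
    (hxy : ‖x‖ = ‖y‖ → x = y ∨ x = -y) (hxz : ‖z‖ = ‖x‖ → z = x ∨ z = -x)
    (hyz : ‖z‖ = ‖y‖ → z = y ∨ z = -y) : x + y - z ≠ 0 := by
  intro h
  have h1 : z = x + y := by linear_combination -h
  rcases lt_trichotomy ‖x‖ ‖y‖ with hlt | heq | hlt
  · have hn : ‖z‖ = ‖y‖ := by
      rw [h1, IsUltrametricDist.norm_add_eq_max_of_norm_ne_norm hlt.ne, max_eq_right hlt.le]
    rcases hyz hn with e | e
    · apply hx
      linear_combination h1.symm + e
    · have e1 : x = -(2 * y) := by linear_combination h1.symm + e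
      have : ‖x‖ = ‖y‖ := by rw [e1, norm_neg, norm_mul, h2, one_mul]
      exact hlt.ne this
  · rcases hxy heq with e | e
    · have e1 : z = 2 * x := by rw [h1, ← e]; ring
      have hn : ‖z‖ = ‖x‖ := by rw [e1, norm_mul, h2, one_mul]
      rcases hxz hn with e2 | e2
      · apply hx
        linear_combination e2 - e1
      · have : (3 : L) * x = 0 := by linear_combination e2 - e1
        exact (mul_ne_zero h3 hx) this
    · apply hz
      rw [h1, e]
      ring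
  · have hn : ‖z‖ = ‖x‖ := by
      rw [h1, IsUltrametricDist.norm_add_eq_max_of_norm_ne_norm hlt.ne', max_eq_left hlt.le]
    rcases hxz hn with e | e
    · apply hy
      linear_combination h1.symm + e
    · have e1 : y = -(2 * x) := by linear_combination h1.symm + e
      have : ‖y‖ = ‖x‖ := by rw [e1, norm_neg, norm_mul, h2, one_mul]
      exact hlt.ne this

theorem exists_low {T : Type} [Finite T] [Nonempty T] (f : T → ℝ) (hf : ∀ t, 0 < f t) :
    ∃ δ : ℝ, 0 < δ ∧ ∀ t, δ ≤ f t := by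
  obtain ⟨t₀, h⟩ := Finite.exists_min f
  exact ⟨f t₀, hf t₀, h⟩

theorem t : Pool.Agent.Y142.ZI.S_TYPX := by
  intro ℓ _ h2 m
  have hp := (Fact.out : ℓ.Prime)
  have hp3 : 3 ≤ ℓ := by
    have := hp.two_le
    omega
  have hl0 : (0 : ℝ) < ℓ := by exact_mod_cast hp.pos
  have hl1' : (1 : ℝ) < ℓ := by exact_mod_cast hp.one_lt
  have hl1 : (ℓ : ℝ)⁻¹ < 1 := inv_lt_one_of_one_lt₀ hl1'
  have hL2 : ‖(2 : AlgebraicClosure ℚ_[ℓ])‖ = 1 := by
    have := norm_nat (ℓ := ℓ) 2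
    rw [Padic.norm_natCast_eq_one_iff.2 ((Nat.coprime_primes hp Nat.prime_two).2 h2)] at this
    simpa using this
  have hL3 : (3 : AlgebraicClosure ℚ_[ℓ]) ≠ 0 := by norm_num
  set d : Fin m → ℚ_[ℓ] := fun i => ((ℓ : ℚ_[ℓ]) ^ ((i : ℕ) + 1))⁻¹ with hd
  have hnd : ∀ i, ‖d i‖ = (ℓ : ℝ) ^ ((i : ℕ) + 1) := by
    intro i
    rw [hd, norm_inv, norm_pow, Padic.norm_p, inv_pow, inv_inv]
  refine ⟨Matrix.diagonal d, ?_⟩
  intro c hc
  obtain ⟨s, hs⟩ : ∃ s : AlgebraicClosure ℚ_[ℓ], s ^ 2 = algebraMap _ _ c :=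
    IsAlgClosed.exists_pow_nat_eq _ (by norm_num)
  have hns : ‖s‖ ^ 2 = (ℓ : ℝ)⁻¹ := by
    rw [← norm_pow, hs, PadicAlgCl.norm_extends, hc]
  have hns1 : ‖s‖ < 1 := by
    have := norm_nonneg s
    nlinarith
  have hns0 : 0 < ‖s‖ := by
    rcases (norm_nonneg s).lt_or_eq with h | h
    · exact h
    · exfalso
      rw [← h] at hns
      have : 0 < (ℓ : ℝ)⁻¹ := by positivity
      norm_num at hns
      linarith
  set a : Option (Fin m) → AlgebraicClosure ℚ_[ℓ] := fun o =>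
    o.elim s (fun i => algebraMap _ _ (d i)) with ha
  set e : Option (Fin m) × Bool → AlgebraicClosure ℚ_[ℓ] := fun p => if p.2 then a p.1 else - a p.1
    with he
  have hasome : ∀ i, ‖a (some i)‖ = (ℓ : ℝ) ^ ((i : ℕ) + 1) := by
    intro i
    rw [← hnd i]
    exact PadicAlgCl.norm_extends ℓ (d i)
  have hanone : ‖a none‖ = ‖s‖ := rfl
  have hgt : ∀ i : Fin m, 1 < (ℓ : ℝ) ^ ((i : ℕ) + 1) := fun i => one_lt_pow₀ hl1' (by omega)
  have hinj : ∀ i j, ‖a i‖ = ‖a j‖ → i = j := by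
    intro i j h
    cases i with
    | none =>
      cases j with
      | none => rfl
      | some j =>
        rw [hanone, hasome] at h
        have := hgt j
        linarith
    | some i =>
      cases j with
      | none =>
        rw [hanone, hasome] at h
        have := hgt i
        linarith
      | some j =>
        rw [hasome, hasome] at h
        have h5 := pow_right_injective₀ hl0 hl1'.ne' h
        congr 1
        apply Fin.ext
        simpa using h5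
  have hpos : ∀ i, 0 < ‖a i‖ := by
    intro i
    cases i with
    | none => exact hns0
    | some i =>
      rw [hasome]
      have := hgt i
      linarith
  have hne : ∀ p, ‖e p‖ = ‖a p.1‖ := by
    intro p
    simp only [he]
    split_ifs
    · rfl
    · exact norm_neg _
  have hpe : ∀ p q, ‖e p‖ = ‖e q‖ → e p = e q ∨ e p = - e q := by
    intro p q h
    rw [hne, hne] at h
    have h1 := hinj _ _ h
    simp only [he]
    rw [h1]
    split_ifs <;> simp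
  have he0 : ∀ p, e p ≠ 0 := by
    intro p
    rw [← norm_pos_iff, hne]
    exact hpos _
  have hsf : ∀ p q r, e p + e q - e r ≠ 0 := fun p q r =>
    sumfree hL2 hL3 (he0 p) (he0 q) (he0 r) (hpe p q) (hpe r p) (hpe r q)
  -- the constants
  obtain ⟨δ₁, hδ₁, hδ₁'⟩ := exists_low
    (fun t : (Option (Fin m) × Bool) × (Option (Fin m) × Bool) × (Option (Fin m) × Bool) =>
      ‖e t.1 + e t.2.1 - e t.2.2‖) (fun t => norm_pos_iff.2 (hsf _ _ _))
  obtain ⟨δ₂, hδ₂, hδ₂'⟩ := exists_low (fun t : Option (Fin m) × Bool => ‖e t‖)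
    (fun t => norm_pos_iff.2 (he0 _))
  obtain ⟨η, hη0, hη1, hηδ₁, hηδ₂⟩ : ∃ η : ℝ, 0 < η ∧ η ≤ 1 ∧ η < δ₁ ∧ η < δ₂ := by
    have h5 := min_le_left 1 (min δ₁ δ₂)
    have h6 := (min_le_right 1 (min δ₁ δ₂)).trans (min_le_left _ _)
    have h7 := (min_le_right 1 (min δ₁ δ₂)).trans (min_le_right _ _)
    have h8 : 0 < min 1 (min δ₁ δ₂) := lt_min one_pos (lt_min hδ₁ hδ₂)
    exact ⟨min 1 (min δ₁ δ₂) / 2, by linarith, by linarith, by linarith, by linarith⟩
  obtain ⟨M, hM1, heM⟩ : ∃ M : ℝ, 1 ≤ M ∧ ∀ p, ‖e p‖ ≤ M := by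
    refine ⟨1 + ∑ p, ‖e p‖, ?_, fun p => ?_⟩
    · have : 0 ≤ ∑ p, ‖e p‖ := Finset.sum_nonneg fun p _ => norm_nonneg _
      linarith
    · have h5 : ‖e p‖ ≤ ∑ p, ‖e p‖ :=
        Finset.single_le_sum (f := fun p => ‖e p‖) (fun p _ => norm_nonneg _) (Finset.mem_univ p)
      linarith
  have hM0 : 0 < M := by linarith
  have hcard : Fintype.card (Option (Fin m) × Bool) = 2 * m + 2 := by
    rw [Fintype.card_prod, Fintype.card_option, Fintype.card_fin, Fintype.card_bool]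
    ring
  obtain ⟨k₀, hk₀⟩ := exists_pow_lt_of_lt_one
    (show 0 < min δ₁ (ℓ : ℝ)⁻¹ / M ^ 2 from
      div_pos (lt_min hδ₁ (inv_pos.2 hl0)) (pow_pos hM0 2)) hl1
  refine ⟨(η / M) ^ (2 * m + 2), k₀, pow_pos (div_pos hη0 hM0) _, ?_⟩
  intro k Q hk hk0 hQ hdeg hclose
  set R₀ : ℚ_[ℓ][X] := (X ^ 2 - C c) * (Matrix.diagonal d).charpoly * (-Matrix.diagonal d).charpoly
    with hR₀
  have hR₀m : R₀.Monic := by
    rw [hR₀]
    exact ((monic_X_pow_sub_C c (by norm_num)).mul (Matrix.charpoly_monic _)).mul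
      (Matrix.charpoly_monic _)
  have hR₀d : R₀.natDegree = 2 * m + 2 := by
    rw [hR₀, Monic.natDegree_mul ((monic_X_pow_sub_C c (by norm_num)).mul (Matrix.charpoly_monic _))
      (Matrix.charpoly_monic _), Monic.natDegree_mul (monic_X_pow_sub_C c (by norm_num))
      (Matrix.charpoly_monic _), natDegree_X_pow_sub_C, Matrix.charpoly_natDegree_eq_dim,
      Matrix.charpoly_natDegree_eq_dim, Fintype.card_fin]
    ring
  have hRm := resc_monic k hQ
  have hRd : (resc ℓ k Q).natDegree = 2 * m + 2 := by rw [resc_natDegree, hdeg]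
  have hprod : ∀ r : AlgebraicClosure ℚ_[ℓ], aeval r R₀ = ∏ p, (r - e p) := by
    intro r
    rw [hR₀, Matrix.diagonal_neg, Matrix.charpoly_diagonal, Matrix.charpoly_diagonal, map_mul, map_mul,
      map_prod, map_prod, Fintype.prod_prod_type, Fintype.prod_option]
    simp only [Fintype.prod_bool, he, ha, map_sub, map_add, map_pow, aeval_X, aeval_C, Option.elim_none,
      Option.elim_some, if_true, Bool.false_eq_true, if_false, Finset.prod_mul_distrib, map_neg,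
      sub_neg_eq_add, ← hs]
    ring
  -- roots are close to the `e p`
  have hroot : ∀ x : AlgebraicClosure ℚ_[ℓ], aeval x Q = 0 → ∃ r : AlgebraicClosure ℚ_[ℓ],
      x = 1 + algebraMap ℚ_[ℓ] (AlgebraicClosure ℚ_[ℓ]) ((ℓ : ℚ_[ℓ]) ^ k) * r ∧ ‖r‖ ≤ M ∧
      ∃ p, ‖r - e p‖ ≤ η := by
    intro x hx
    have h0 : algebraMap ℚ_[ℓ] (AlgebraicClosure ℚ_[ℓ]) ((ℓ : ℚ_[ℓ]) ^ k) ≠ 0 :=
      (_root_.map_ne_zero _).2 (ell_pow_ne k)
    set r := (x - 1) / algebraMap ℚ_[ℓ] (AlgebraicClosure ℚ_[ℓ]) ((ℓ : ℚ_[ℓ]) ^ k) with hr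
    have hr0 : aeval r (resc ℓ k Q) = 0 := (aeval_resc k Q x).2 hx
    refine ⟨r, by rw [hr, mul_div_cancel₀ _ h0]; ring, ?_⟩
    apply exists_close e M hM1 heM η hη0 hη1 r ((η / M) ^ (2 * m + 2)) (by rw [hcard])
    rw [← hprod, hcard]
    have h5 : aeval r R₀ = - aeval r (resc ℓ k Q - R₀) := by
      rw [map_sub, hr0]
      ring
    rw [h5, norm_neg]
    apply norm_aeval_le _ _ (pow_pos (div_pos hη0 hM0) _).le (fun j => (hclose j).le)
    rw [natDegree_le_iff_coeff_eq_zero]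
    intro j hj
    rw [coeff_sub]
    rcases eq_or_lt_of_le (show 2 * m + 2 ≤ j by omega) with h | h
    · rw [← h]
      nth_rewrite 1 [← hRd]
      rw [← hR₀d, hRm.coeff_natDegree, hR₀m.coeff_natDegree, sub_self]
    · rw [coeff_eq_zero_of_natDegree_lt (by rw [hRd]; exact h),
        coeff_eq_zero_of_natDegree_lt (by rw [hR₀d]; exact h), sub_self]
  have hnk : ‖algebraMap ℚ_[ℓ] (AlgebraicClosure ℚ_[ℓ]) ((ℓ : ℚ_[ℓ]) ^ k)‖ = ((ℓ : ℝ)⁻¹) ^ k := by
    have := PadicAlgCl.norm_extends ℓ ((ℓ : ℚ_[ℓ]) ^ k)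
    rw [this, norm_pow, Padic.norm_p]
  have hkk : ((ℓ : ℝ)⁻¹) ^ k * M ^ 2 < min δ₁ (ℓ : ℝ)⁻¹ := by
    have h5 : ((ℓ : ℝ)⁻¹) ^ k ≤ ((ℓ : ℝ)⁻¹) ^ k₀ := pow_le_pow_of_le_one (inv_pos.2 hl0).le hl1.le hk
    have h6 : ((ℓ : ℝ)⁻¹) ^ k < min δ₁ (ℓ : ℝ)⁻¹ / M ^ 2 := h5.trans_lt hk₀
    rwa [lt_div_iff₀ (pow_pos hM0 2)] at h6
  constructor
  · intro n x hn hx hone
    obtain ⟨r, hr, hrM, p, hp⟩ := hroot x hx
    have hr0 : r ≠ 0 := by
      intro h0
      rw [h0, zero_sub, norm_neg] at hp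
      have := hδ₂' p
      linarith
    rw [hr] at hone
    refine unit_near h2 n hn _ ?_ ?_ hone
    · rw [norm_mul, hnk]
      calc ((ℓ : ℝ)⁻¹) ^ k * ‖r‖ ≤ ((ℓ : ℝ)⁻¹) ^ k * M := by gcongr
        _ ≤ ((ℓ : ℝ)⁻¹) ^ k * M ^ 2 := by
            gcongr
            nlinarith
        _ ≤ (ℓ : ℝ)⁻¹ := hkk.le.trans (min_le_right _ _)
    · exact mul_ne_zero ((_root_.map_ne_zero _).2 (ell_pow_ne k)) hr0
  · intro x y z hx hy hz hxyz
    obtain ⟨r, hr, hrM, p, hp⟩ := hroot x hx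
    obtain ⟨u, hu, huM, q, hq⟩ := hroot y hy
    obtain ⟨v, hv, hvM, w, hw⟩ := hroot z hz
    set lk := algebraMap ℚ_[ℓ] (AlgebraicClosure ℚ_[ℓ]) ((ℓ : ℚ_[ℓ]) ^ k) with hlk
    have h0 : lk ≠ 0 := (_root_.map_ne_zero _).2 (ell_pow_ne k)
    have h5 : r + u - v = - (lk * (r * u)) := by
      have h6 : lk * (r + u - v + lk * (r * u)) = 0 := by
        rw [hr, hu, hv] at hxyz
        linear_combination hxyz
      have h7 := (mul_eq_zero.1 h6).resolve_left h0
      linear_combination h7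
    have h6 : ‖r + u - v‖ < δ₁ := by
      rw [h5, norm_neg, norm_mul, norm_mul, hnk]
      calc ((ℓ : ℝ)⁻¹) ^ k * (‖r‖ * ‖u‖) ≤ ((ℓ : ℝ)⁻¹) ^ k * (M * M) := by gcongr
        _ = ((ℓ : ℝ)⁻¹) ^ k * M ^ 2 := by ring
        _ < δ₁ := hkk.trans_le (min_le_left _ _)
    have h7 : ‖e p + e q - e w‖ < δ₁ := by
      have h8 : e p + e q - e w = (r + u - v) - ((r - e p) + (u - e q) - (v - e w)) := by ring
      rw [h8]
      apply sub_lt h6
      exact sub_lt (add_lt (hp.trans_lt hηδ₁) (hq.trans_lt hηδ₁)) (hw.trans_lt hηδ₁)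
    have h8 := hδ₁' (p, q, w)
    simp only at h8
    linarith

end Pool.Agent.Q119.OI.TYPX
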